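import Pool.Agent.helper8.GD.Spec
import Pool.Agent.Lib.PrimeSums

set_option autoImplicit false

namespace GD

open Finset ArithmeticFunction

theorem CW_exp {t : ℝ} (h0 : 0 ≤ t) (h1 : t ≤ 1 / 2) : (1 - t)⁻¹ ≤ Real.exp (t + t ^ 2) := by
  have h2 := Real.quadratic_le_exp_of_nonneg (by positivity : 0 ≤ t + t ^ 2)
  refine le_trans ?_ h2
  rw [inv_le_iff_one_le_mul₀ (by linarith)]
  have h3 : 0 ≤ 1 - t - t ^ 2 - t ^ 3 := by nlinarith [mul_nonneg h0 h0, mul_nonneg h0 (mul_nonneg h0 h0)]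
  have h4 : (1 + (t + t ^ 2) + (t + t ^ 2) ^ 2 / 2) * (1 - t) =
      1 + t ^ 2 / 2 * (1 - t - t ^ 2 - t ^ 3) := by ring
  rw [h4]
  have := mul_nonneg (by positivity : 0 ≤ t ^ 2 / 2) h3
  linarith

theorem CW_sq (w : ℕ) (hw : 1 ≤ w) : ∑ l ∈ Icc 2 w, 1 / (l : ℝ) ^ 2 ≤ 1 - 1 / (w : ℝ) := by
  induction w, hw using Nat.le_induction with
  | base => simp
  | succ n hn ih =>
    have h2 : Icc 2 (n + 1) = insert (n + 1) (Icc 2 n) := by
      ext k; simp only [mem_Icc, mem_insert]; omega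
    rw [h2, sum_insert (by simp)]
    have hn' : (1 : ℝ) ≤ n := by exact_mod_cast hn
    have h3 : 1 / (((n + 1 : ℕ) : ℝ)) ^ 2 ≤ 1 / (n : ℝ) - 1 / ((n + 1 : ℕ) : ℝ) := by
      push_cast
      rw [div_sub_div _ _ (by positivity) (by positivity), div_le_div_iff₀ (by positivity) (by positivity)]
      nlinarith
    linarith

theorem CW : CW_stmt := by
  refine ⟨Real.exp 5, Real.exp_pos _, ?_⟩
  intro w hw
  have hPs : Ps w = Nat.primesLE w := by
    ext p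
    unfold Ps
    rw [mem_filter, mem_Icc, Nat.mem_primesLE]
    constructor
    · rintro ⟨⟨_, h2⟩, h3⟩; exact ⟨h2, h3⟩
    · rintro ⟨h2, h3⟩; exact ⟨⟨h3.one_lt.le, h2⟩, h3⟩
  have hl : ∀ l ∈ Ps w, 0 ≤ 1 / (l : ℝ) ∧ 1 / (l : ℝ) ≤ 1 / 2 := by
    intro l hl
    have h1 : (2 : ℝ) ≤ l := by exact_mod_cast (mem_filter.1 hl).2.two_le
    exact ⟨by positivity, one_div_le_one_div_of_le (by norm_num) h1⟩
  constructor
  · have h := prod_le_prod (s := Ps w) (f := fun _ : ℕ => (1 : ℝ)) (g := fun l : ℕ => (1 - 1 / (l : ℝ))⁻¹)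
      (fun _ _ => zero_le_one) (fun l hl' => by
        obtain ⟨h1, h2⟩ := hl l hl'
        rw [one_le_inv₀ (by linarith)]
        linarith)
    simpa [cw] using h
  · have h1 : cw w ≤ ∏ l ∈ Ps w, Real.exp (1 / (l : ℝ) + (1 / (l : ℝ)) ^ 2) := by
      unfold cw
      refine prod_le_prod (fun l hl' => ?_) (fun l hl' => ?_)
      · obtain ⟨h1, h2⟩ := hl l hl'
        rw [inv_nonneg]; linarith
      · obtain ⟨h1, h2⟩ := hl l hl'
        exact CW_exp h1 h2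
    rw [← Real.exp_sum, sum_add_distrib] at h1
    have h2 : ∑ l ∈ Ps w, 1 / (l : ℝ) ≤ Real.log (Real.log w) + 4 := by
      rw [hPs]; exact Pool.Agent.Lib.PrimeSums.sum_inv_le w hw
    have h3 : ∑ l ∈ Ps w, (1 / (l : ℝ)) ^ 2 ≤ 1 := by
      have h4 : ∑ l ∈ Ps w, (1 / (l : ℝ)) ^ 2 ≤ ∑ l ∈ Icc 2 w, 1 / (l : ℝ) ^ 2 := by
        have e : ∀ l : ℕ, (1 / (l : ℝ)) ^ 2 = 1 / (l : ℝ) ^ 2 := fun l => by rw [div_pow, one_pow]
        simp only [e]
        refine sum_le_sum_of_subset_of_nonneg ?_ (fun _ _ _ => by positivity)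
        intro l hl'
        unfold Ps at hl'
        rw [mem_filter, mem_Icc] at hl'
        exact mem_Icc.2 ⟨hl'.2.two_le, hl'.1.2⟩
      have h5 := CW_sq w (by omega)
      have h6 : (0 : ℝ) ≤ 1 / w := by positivity
      linarith
    have hlog : 0 < Real.log w := Real.log_pos (by exact_mod_cast (by omega : 1 < w))
    refine h1.trans ?_
    calc Real.exp (∑ l ∈ Ps w, 1 / (l : ℝ) + ∑ l ∈ Ps w, (1 / (l : ℝ)) ^ 2)
        ≤ Real.exp (5 + Real.log (Real.log w)) := Real.exp_le_exp.2 (by linarith)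
      _ = Real.exp 5 * Real.log w := by rw [Real.exp_add, Real.exp_log hlog]

end GD
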