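import Pool.Agent.helper97.GD.Spec

/-!
# Project GD, row GHB: the theorem of Herbrand for the two sentences
-/

set_option autoImplicit false

open Filter FirstOrder FirstOrder.Language

namespace Pool.Agent.GD

open Pool.Agent.UnivT

theorem GHB_univ : Theory.IsUniversal UnivTh := ⟨fun _ h => h.1⟩

theorem GHB_lt (x y : Lb.Term (Empty ⊕ Fin 4)) : (fLt x y).IsQF :=
  (BoundedFormula.IsAtomic.rel (L := Lb) Rl.lt ![x, y]).isQF

theorem GHB_qf (t : Lb.Term (Empty ⊕ Fin 4)) : (matrix t).IsQF :=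
  (GHB_lt _ _).inf (((GHB_lt _ _).inf (GHB_lt _ _)).inf (BoundedFormula.IsAtomic.equal _ _).isQF)

theorem GHB_rm (t : Lb.Term (Empty ⊕ Fin 4)) (v : Empty → ℤ) (xs : Fin 4 → ℤ) : (matrix t).Realize v xs ↔
    xs 0 < xs 1 ∧ (1 < xs 2 ∧ 1 < xs 3) ∧
      xs 2 * xs 3 = 2 ^ ((2 : ℤ) ^ (t.realize (Sum.elim v xs)).toNat).toNat + 1 := by
  unfold matrix
  rw [BoundedFormula.realize_inf, BoundedFormula.realize_inf, BoundedFormula.realize_inf, BoundedFormula.realize_bdEqual]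
  exact Iff.rfl

theorem GHB_main (t : Lb.Term (Empty ⊕ Fin 4)) (hN : UnivTh ⊨ᵇ (matrix t).ex.ex.ex.all) :
    ∃ a x y : Lb.Term (Fin 1), ∃ᶠ H : ℕ in atTop, (matrix t).Realize (fun i : Empty => i.elim)
      (![(H : ℤ), a.realize (fun _ => (H : ℤ)), x.realize (fun _ => (H : ℤ)), y.realize (fun _ => (H : ℤ))] : Fin 4 → ℤ) := by
  let U : Ultrafilter ℕ := hyperfilter ℕ
  have hu := GHB_univ
  let P : Type := (U : Filter ℕ).Product (fun _ => ℤ)
  let x0 : P := ((fun m : ℕ => (m : ℤ)) : (U : Filter ℕ).Product (fun _ => ℤ))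
  let S : Lb.Substructure P := Substructure.closure Lb {x0}
  have hP : P ⊨ UnivTh := ⟨fun φ hφ => (Ultraproduct.sentence_realize φ).mpr (Eventually.of_forall fun _ => hφ.2)⟩
  have hx0 : x0 ∈ S := Substructure.subset_closure (Set.mem_singleton _)
  have hne : Nonempty S := ⟨⟨x0, hx0⟩⟩
  have hS : S ⊨ (matrix t).ex.ex.ex.all := hN.realize_sentence S
  have h1 := hS ⟨x0, hx0⟩
  rw [BoundedFormula.realize_ex] at h1
  obtain ⟨a, ha⟩ := h1
  rw [BoundedFormula.realize_ex] at ha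
  obtain ⟨x, hx⟩ := ha
  rw [BoundedFormula.realize_ex] at hx
  obtain ⟨y, hy⟩ := hx
  have hterm : ∀ z : S, ∃ g : Lb.Term (Fin 1), (z : P) =
      ((fun m : ℕ => g.realize (fun _ => (m : ℤ))) : (U : Filter ℕ).Product (fun _ => ℤ)) := by
    intro z
    obtain ⟨s, hs⟩ := Substructure.mem_closure_iff_exists_term.mp z.2
    refine ⟨s.relabel (fun _ => (0 : Fin 1)), ?_⟩
    rw [← hs]
    have e : ((↑) : ({x0} : Set P) → P) = fun i : ({x0} : Set P) =>
        (((fun _ m => (m : ℤ) : ({x0} : Set P) → ℕ → ℤ) i : ℕ → ℤ) : (U : Filter ℕ).Product (fun _ => ℤ)) := by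
      funext i
      exact i.2
    rw [e]
    refine (Ultraproduct.term_realize_cast (M := fun _ : ℕ => ℤ) (u := U) _ s).trans ?_
    have e2 : (fun m : ℕ => (s.relabel (fun _ => (0 : Fin 1))).realize (fun _ => (m : ℤ))) =
        fun m : ℕ => s.realize (fun _ => (m : ℤ)) := by
      funext m
      rw [Term.realize_relabel]
      rfl
    rw [e2]
  obtain ⟨g, hg⟩ := hterm a
  obtain ⟨h, hh⟩ := hterm x
  obtain ⟨k, hk⟩ := hterm y
  rw [← (GHB_qf t).realize_embedding S.subtype] at hy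
  have e1 : (S.subtype ∘ (default : Empty → S)) =
      fun i : Empty => (((fun i _ => i.elim : Empty → ℕ → ℤ) i : ℕ → ℤ) : (U : Filter ℕ).Product (fun _ => ℤ)) := by
    funext i
    exact i.elim
  have e2 : (S.subtype ∘ (Fin.snoc (Fin.snoc (Fin.snoc (Fin.snoc default ⟨x0, hx0⟩ : Fin 1 → S) a : Fin 2 → S) x :
      Fin 3 → S) y : Fin 4 → S)) =
      fun i : Fin 4 => (((![fun m => (m : ℤ), fun m => g.realize (fun _ => (m : ℤ)), fun m => h.realize (fun _ => (m : ℤ)),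
        fun m => k.realize (fun _ => (m : ℤ))] : Fin 4 → ℕ → ℤ) i : ℕ → ℤ) :
        (U : Filter ℕ).Product (fun _ => ℤ)) := by
    funext i
    fin_cases i
    · rfl
    · exact hg
    · exact hh
    · exact hk
  rw [e1, e2] at hy
  have h3 := (Ultraproduct.boundedFormula_realize_cast (M := fun _ : ℕ => ℤ) (u := U) (matrix t) _ _).mp hy
  refine ⟨g, h, k, ?_⟩
  have h4 : ∃ᶠ m : ℕ in (U : Filter ℕ), (matrix t).Realize (fun i : Empty => i.elim)
      (![(m : ℤ), g.realize (fun _ => (m : ℤ)), h.realize (fun _ => (m : ℤ)), k.realize (fun _ => (m : ℤ))] : Fin 4 → ℤ) := by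
    refine Eventually.frequently (h3.mono fun m hm => ?_)
    have e3 : (fun i : Fin 4 => (![fun m => (m : ℤ), fun m => g.realize (fun _ => (m : ℤ)), fun m => h.realize (fun _ => (m : ℤ)),
        fun m => k.realize (fun _ => (m : ℤ))] : Fin 4 → ℕ → ℤ) i m) =
        (![(m : ℤ), g.realize (fun _ => (m : ℤ)), h.realize (fun _ => (m : ℤ)), k.realize (fun _ => (m : ℤ))] : Fin 4 → ℤ) := by
      funext i
      fin_cases i <;> rfl
    rw [← e3]
    exact hm
  exact h4.filter_mono (Nat.hyperfilter_le_atTop)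

theorem GHB : GHB_stmt := by
  refine ⟨fun h => ?_, fun h => ?_⟩
  · obtain ⟨a, x, y, hF⟩ := GHB_main (tVar 1) h
    refine ⟨a, x, y, hF.mono fun H hH => ?_⟩
    rw [GHB_rm] at hH
    obtain ⟨h1, ⟨h2, h3⟩, h4⟩ := hH
    exact ⟨h1, h2, h3, h4⟩
  · obtain ⟨a, x, y, hF⟩ := GHB_main (tAdd (tVar 1) (tPow (tVar 1))) h
    refine ⟨a, x, y, hF.mono fun H hH => ?_⟩
    rw [GHB_rm] at hH
    obtain ⟨h1, ⟨h2, h3⟩, h4⟩ := hH
    exact ⟨h1, h2, h3, h4⟩

end Pool.Agent.GD
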